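import Pool.Agent.helper48.CG.Spec

set_option autoImplicit false

namespace Pool.Agent.helper48.CG

open Equiv Finset Function Pool.Agent.helper48.PP

theorem IN1_mod (d x r : ℕ) (hr : r < d + 1) : ((d + 1) * x + r) % (d + 1) = r := by
  rw [Nat.mul_add_mod, Nat.mod_eq_of_lt hr]

theorem IN1 : IN1_stmt := by
  intro b q d y v a ha
  constructor
  · rintro (u | i) (u' | i') h
    · simp only [ipk] at h
      have : u = u' := Fin.ext (by omega)
      rw [this]
    · simp only [ipk] at h
      omega
    · simp only [ipk] at h
      omega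
    · simp only [ipk] at h
      have : a i = a i' := Fin.ext (by omega)
      rw [ha.injective this]
  · rintro (u | i) (u' | i') h
    · simp only [ivk] at h
      have h1 : (d + 1) * (v u : ℕ) = (d + 1) * (v u' : ℕ) := by omega
      have h2 : (v u : ℕ) = v u' := Nat.eq_of_mul_eq_mul_left (by omega) h1
      have h3 : u = u' := v.injective (Fin.ext h2)
      rw [h3]
    · exfalso
      simp only [ivk] at h
      have hi := i'.isLt
      have h1 := IN1_mod d (v u : ℕ) d (by omega)
      have h2 := IN1_mod d (hgt y v (a i' : ℕ)) (d - 1 - (i' : ℕ)) (by omega)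
      rw [h, h2] at h1
      omega
    · exfalso
      simp only [ivk] at h
      have hi := i.isLt
      have h1 := IN1_mod d (v u' : ℕ) d (by omega)
      have h2 := IN1_mod d (hgt y v (a i : ℕ)) (d - 1 - (i : ℕ)) (by omega)
      rw [← h, h2] at h1
      omega
    · simp only [ivk] at h
      have hi := i.isLt
      have hi' := i'.isLt
      have h1 := IN1_mod d (hgt y v (a i : ℕ)) (d - 1 - (i : ℕ)) (by omega)
      have h2 := IN1_mod d (hgt y v (a i' : ℕ)) (d - 1 - (i' : ℕ)) (by omega)
      rw [h, h2] at h1
      have : i = i' := Fin.ext (by omega)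
      rw [this]

end Pool.Agent.helper48.CG
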